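import Mathlib
import Pool.Agent.X277.ExtTools

/-!
# A weakly Lee `n`-coherent ring that is not Lee `n`-coherent

Let `L = k[x,y]/(x,y)^2`, `M = Hom_k(L,k)`, `A = {(l,c) ∈ L × k^ℕ : c_i = l̄ for almost all i}` and
`R` the triangular ring with diagonal entries `A`, `k` and off-diagonal entry `M`.
Every finitely generated left ideal of `R` of finite projective dimension is generated by an
idempotent, but `R²` has a cyclic submodule of projective dimension one that is not
finitely presented.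
-/

namespace Pool.Agent.Results.MP_0b9bd1_al.WeaklyLeeNotLee

open CategoryTheory Abelian Limits

/-- `R` is (left) Lee `n`-coherent. -/
def LeeCoherent (R : Type) [Ring R] (n : ℕ∞) : Prop :=
  ∀ (m : ℕ) (_ : 1 ≤ m) (K : Submodule R (Fin m → R)), K.FG →
    projectiveDimension (ModuleCat.of R K) ≤ ((n - 1 : ℕ∞) : WithBot ℕ∞) →
    Module.FinitePresentation R K

/-- `R` is weakly (left) Lee `n`-coherent. -/
def WeaklyLeeCoherent (R : Type) [Ring R] (n : ℕ∞) : Prop :=
  ∀ I : Submodule R R, I.FG →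
    projectiveDimension (ModuleCat.of R I) ≤ ((n - 1 : ℕ∞) : WithBot ℕ∞) →
    Module.FinitePresentation R I

/-- The ring `R`: `l = a + l1 x + l2 y`, `m = p v1 + q v2 + w w0`, `b ∈ k`, and a sequence `c`
that is eventually equal to `a`. -/
@[ext] structure RR (k : Type) where
  /-- constant coefficient of `l` -/
  a : k
  /-- `x` coefficient -/
  l1 : k
  /-- `y` coefficient -/
  l2 : k
  /-- coefficient of `v1` -/
  p : k
  /-- coefficient of `v2` -/
  q : k
  /-- coefficient of the socle element of `M` -/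
  w : k
  /-- second diagonal entry -/
  b : k
  /-- eventually constant sequence -/
  c : ℕ → k
  /-- `c` is eventually equal to `a` -/
  ev : ∃ N, ∀ i, N ≤ i → c i = a

variable {k : Type} [Field k]

namespace RR

omit [Field k] in
lemma ext' {r s : RR k} (h1 : r.a = s.a) (h2 : r.l1 = s.l1) (h3 : r.l2 = s.l2)
    (h4 : r.p = s.p) (h5 : r.q = s.q) (h6 : r.w = s.w) (h7 : r.b = s.b)
    (h8 : ∀ i, r.c i = s.c i) : r = s :=
  RR.ext h1 h2 h3 h4 h5 h6 h7 (funext h8)

instance : Zero (RR k) := ⟨⟨0, 0, 0, 0, 0, 0, 0, fun _ => 0, 0, fun _ _ => rfl⟩⟩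
instance : One (RR k) := ⟨⟨1, 0, 0, 0, 0, 0, 1, fun _ => 1, 0, fun _ _ => rfl⟩⟩
instance : Add (RR k) := ⟨fun r s => ⟨r.a + s.a, r.l1 + s.l1, r.l2 + s.l2, r.p + s.p, r.q + s.q,
  r.w + s.w, r.b + s.b, fun i => r.c i + s.c i, by
    obtain ⟨N, hN⟩ := r.ev
    obtain ⟨N', hN'⟩ := s.ev
    exact ⟨max N N', fun i hi => by
      rw [hN i (le_trans (le_max_left _ _) hi), hN' i (le_trans (le_max_right _ _) hi)]⟩⟩⟩
instance : Neg (RR k) := ⟨fun r => ⟨-r.a, -r.l1, -r.l2, -r.p, -r.q, -r.w, -r.b, fun i => -r.c i, by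
    obtain ⟨N, hN⟩ := r.ev
    exact ⟨N, fun i hi => by rw [hN i hi]⟩⟩⟩
instance : Mul (RR k) := ⟨fun r s => ⟨r.a * s.a, r.a * s.l1 + r.l1 * s.a, r.a * s.l2 + r.l2 * s.a,
  r.a * s.p + r.p * s.b, r.a * s.q + r.q * s.b,
  r.a * s.w + r.l1 * s.q + r.l2 * s.p + r.w * s.b, r.b * s.b, fun i => r.c i * s.c i, by
    obtain ⟨N, hN⟩ := r.ev
    obtain ⟨N', hN'⟩ := s.ev
    exact ⟨max N N', fun i hi => by
      rw [hN i (le_trans (le_max_left _ _) hi), hN' i (le_trans (le_max_right _ _) hi)]⟩⟩⟩

section simps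
variable (r s : RR k) (i : ℕ)
@[simp] lemma zero_a : (0 : RR k).a = 0 := rfl
@[simp] lemma zero_l1 : (0 : RR k).l1 = 0 := rfl
@[simp] lemma zero_l2 : (0 : RR k).l2 = 0 := rfl
@[simp] lemma zero_p : (0 : RR k).p = 0 := rfl
@[simp] lemma zero_q : (0 : RR k).q = 0 := rfl
@[simp] lemma zero_w : (0 : RR k).w = 0 := rfl
@[simp] lemma zero_b : (0 : RR k).b = 0 := rfl
@[simp] lemma zero_c : (0 : RR k).c i = 0 := rfl
@[simp] lemma one_a : (1 : RR k).a = 1 := rfl
@[simp] lemma one_l1 : (1 : RR k).l1 = 0 := rfl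
@[simp] lemma one_l2 : (1 : RR k).l2 = 0 := rfl
@[simp] lemma one_p : (1 : RR k).p = 0 := rfl
@[simp] lemma one_q : (1 : RR k).q = 0 := rfl
@[simp] lemma one_w : (1 : RR k).w = 0 := rfl
@[simp] lemma one_b : (1 : RR k).b = 1 := rfl
@[simp] lemma one_c : (1 : RR k).c i = 1 := rfl
@[simp] lemma add_a : (r + s).a = r.a + s.a := rfl
@[simp] lemma add_l1 : (r + s).l1 = r.l1 + s.l1 := rfl
@[simp] lemma add_l2 : (r + s).l2 = r.l2 + s.l2 := rfl
@[simp] lemma add_p : (r + s).p = r.p + s.p := rfl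
@[simp] lemma add_q : (r + s).q = r.q + s.q := rfl
@[simp] lemma add_w : (r + s).w = r.w + s.w := rfl
@[simp] lemma add_b : (r + s).b = r.b + s.b := rfl
@[simp] lemma add_c : (r + s).c i = r.c i + s.c i := rfl
@[simp] lemma neg_a : (-r).a = -r.a := rfl
@[simp] lemma neg_l1 : (-r).l1 = -r.l1 := rfl
@[simp] lemma neg_l2 : (-r).l2 = -r.l2 := rfl
@[simp] lemma neg_p : (-r).p = -r.p := rfl
@[simp] lemma neg_q : (-r).q = -r.q := rfl
@[simp] lemma neg_w : (-r).w = -r.w := rfl
@[simp] lemma neg_b : (-r).b = -r.b := rfl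
@[simp] lemma neg_c : (-r).c i = -r.c i := rfl
@[simp] lemma mul_a : (r * s).a = r.a * s.a := rfl
@[simp] lemma mul_l1 : (r * s).l1 = r.a * s.l1 + r.l1 * s.a := rfl
@[simp] lemma mul_l2 : (r * s).l2 = r.a * s.l2 + r.l2 * s.a := rfl
@[simp] lemma mul_p : (r * s).p = r.a * s.p + r.p * s.b := rfl
@[simp] lemma mul_q : (r * s).q = r.a * s.q + r.q * s.b := rfl
@[simp] lemma mul_w : (r * s).w = r.a * s.w + r.l1 * s.q + r.l2 * s.p + r.w * s.b := rfl
@[simp] lemma mul_b : (r * s).b = r.b * s.b := rfl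
@[simp] lemma mul_c : (r * s).c i = r.c i * s.c i := rfl
end simps

instance : Ring (RR k) where
  add_assoc x y z := by apply ext' <;> (try intro i) <;> simp <;> ring
  zero_add x := by apply ext' <;> (try intro i) <;> simp
  add_zero x := by apply ext' <;> (try intro i) <;> simp
  add_comm x y := by apply ext' <;> (try intro i) <;> simp <;> ring
  neg_add_cancel x := by apply ext' <;> (try intro i) <;> simp
  mul_assoc x y z := by apply ext' <;> (try intro i) <;> simp <;> ring
  one_mul x := by apply ext' <;> (try intro i) <;> simp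
  mul_one x := by apply ext' <;> (try intro i) <;> simp
  left_distrib x y z := by apply ext' <;> (try intro i) <;> simp <;> ring
  right_distrib x y z := by apply ext' <;> (try intro i) <;> simp <;> ring
  zero_mul x := by apply ext' <;> (try intro i) <;> simp
  mul_zero x := by apply ext' <;> (try intro i) <;> simp
  nsmul := nsmulRec
  zsmul := zsmulRec

@[simp] lemma sub_a (r s : RR k) : (r - s).a = r.a - s.a := by simp [sub_eq_add_neg]
@[simp] lemma sub_l1 (r s : RR k) : (r - s).l1 = r.l1 - s.l1 := by simp [sub_eq_add_neg]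
@[simp] lemma sub_l2 (r s : RR k) : (r - s).l2 = r.l2 - s.l2 := by simp [sub_eq_add_neg]
@[simp] lemma sub_p (r s : RR k) : (r - s).p = r.p - s.p := by simp [sub_eq_add_neg]
@[simp] lemma sub_q (r s : RR k) : (r - s).q = r.q - s.q := by simp [sub_eq_add_neg]
@[simp] lemma sub_w (r s : RR k) : (r - s).w = r.w - s.w := by simp [sub_eq_add_neg]
@[simp] lemma sub_b (r s : RR k) : (r - s).b = r.b - s.b := by simp [sub_eq_add_neg]
@[simp] lemma sub_c (r s : RR k) (i : ℕ) : (r - s).c i = r.c i - s.c i := by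
  simp [sub_eq_add_neg]

end RR

open RR

/-- scalars -/
def sc (t : k) : RR k := ⟨t, 0, 0, 0, 0, 0, t, fun _ => t, 0, fun _ _ => rfl⟩
/-- the idempotent `e₁₁` -/
def ff : RR k := ⟨1, 0, 0, 0, 0, 0, 0, fun _ => 1, 0, fun _ _ => rfl⟩
/-- the idempotent `e₂₂` -/
def e2 : RR k := ⟨0, 0, 0, 0, 0, 0, 1, fun _ => 0, 0, fun _ _ => rfl⟩
/-- the element `α x + β y` of the radical of `L` -/
def lel (α β : k) : RR k := ⟨0, α, β, 0, 0, 0, 0, fun _ => 0, 0, fun _ _ => rfl⟩
/-- the central idempotents `e_i` -/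
def ei (i : ℕ) : RR k := ⟨0, 0, 0, 0, 0, 0, 0, fun j => if j = i then 1 else 0, i + 1,
  fun j hj => by rw [if_neg (by omega)]⟩

/-- the submodule `ker χ · N` -/
def DD (N : Type) [AddCommGroup N] [Module (RR k) N] : Submodule (RR k) N :=
  Submodule.span (RR k) {y | ∃ (r : RR k) (n : N), r.a = 0 ∧ y = r • n}

lemma mem_DD {N : Type} [AddCommGroup N] [Module (RR k) N] (r : RR k) (n : N) (h : r.a = 0) :
    r • n ∈ DD (k := k) N := Submodule.subset_span ⟨r, n, h, rfl⟩

lemma linComb_mem {N : Type} [AddCommGroup N] [Module (RR k) N] (u : N →₀ RR k)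
    (h : ∀ g, (u g).a = 0) : Finsupp.linearCombination (RR k) id u ∈ DD (k := k) N := by
  rw [Finsupp.linearCombination_apply]
  refine Submodule.sum_mem _ fun g _ => mem_DD _ _ (h g)

theorem key (d : ℕ) : ∀ (N : Type) [AddCommGroup N] [Module (RR k) N],
    HasProjectiveDimensionLT (ModuleCat.of (RR k) N) (d + 1) →
    ∀ (α β : k), (α ≠ 0 ∨ β ≠ 0) → ∀ n : N, (lel α β : RR k) • n = 0 → n ∈ DD (k := k) N := by
  induction d with
  | zero =>
    intro N _ _ hN α β hab n hn
    have hP : Module.Projective (RR k) N := by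
      have : Projective (ModuleCat.of (RR k) N) := projective_iff_hasProjectiveDimensionLT_one.2 hN
      exact IsProjective.iff_projective N |>.2 this
    obtain ⟨s, hs⟩ := hP
    have hs' : Finsupp.linearCombination (RR k) id (s n) = n := hs n
    rw [← hs']
    apply linComb_mem
    intro g
    have h1 : (lel α β : RR k) * s n g = 0 := by
      have := congrArg (fun u : N →₀ RR k => u g) (congrArg s hn)
      simpa using this
    rcases hab with h | h
    · have := congrArg RR.l1 h1
      simpa [lel, h] using this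
    · have := congrArg RR.l2 h1
      simpa [lel, h] using this
  | succ d ih =>
    intro N _ _ hN α β hab n hn
    classical
    have hg : Function.Surjective (Finsupp.linearCombination (RR k) (id : N → N)) :=
      Finsupp.linearCombination_id_surjective (RR k) N
    obtain ⟨g, hgdef⟩ : ∃ g : (N →₀ RR k) →ₗ[RR k] N, g = Finsupp.linearCombination (RR k) id :=
      ⟨_, rfl⟩
    rw [← hgdef] at hg
    obtain ⟨Q, hQdef⟩ : ∃ Q : Submodule (RR k) (N →₀ RR k), Q = LinearMap.ker g := ⟨_, rfl⟩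
    have hS := Pool.Agent.X277.sc_shortExact (R := RR k) (K := Q) (P := N →₀ RR k) (M := N)
      Q.subtype g (Submodule.injective_subtype _) hg
      (by rw [hQdef]; exact LinearMap.exact_subtype_ker_map g)
    have hF : Projective (ModuleCat.of (RR k) (N →₀ RR k)) := IsProjective.iff_projective (N →₀ RR k) |>.1 inferInstance
    have hF1 : HasProjectiveDimensionLT (ModuleCat.of (RR k) (N →₀ RR k)) (d + 1) :=
      @hasProjectiveDimensionLT_of_ge _ _ _ (ModuleCat.of (RR k) (N →₀ RR k)) 1 (d + 1) (by omega)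
        (projective_iff_hasProjectiveDimensionLT_one.1 hF)
    have hQ : HasProjectiveDimensionLT (ModuleCat.of (RR k) Q) (d + 1) :=
      hS.hasProjectiveDimensionLT_X₁ (d + 1) hF1 hN
    have hz : Finsupp.single n (lel α β : RR k) ∈ Q := by
      rw [hQdef, LinearMap.mem_ker, hgdef, Finsupp.linearCombination_single]
      exact hn
    have hzD := ih Q hQ α β hab ⟨_, hz⟩ (by
      apply Subtype.ext
      change (lel α β : RR k) • Finsupp.single n (lel α β : RR k) = 0
      rw [Finsupp.smul_single, smul_eq_mul]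
      have : (lel α β : RR k) * lel α β = 0 := by
        apply RR.ext' <;> (try intro i) <;> simp [lel]
      rw [this, Finsupp.single_zero])
    have claim : ∀ z : Q, z ∈ DD (k := k) Q → (∀ g, ((z : N →₀ RR k) g).a = 0) ∧
        (∃ q ∈ Q, ∀ g, (q g).a = ((z : N →₀ RR k) g).l1) ∧ (∃ q ∈ Q, ∀ g, (q g).a = ((z : N →₀ RR k) g).l2) := by
      intro z hz
      refine Submodule.span_induction ?_ ?_ ?_ ?_ hz
      · rintro _ ⟨r, q, hr, rfl⟩
        refine ⟨fun g => by simp [hr], ⟨sc r.l1 • (q : N →₀ RR k), Q.smul_mem _ q.2, fun g => ?_⟩,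
          ⟨sc r.l2 • (q : N →₀ RR k), Q.smul_mem _ q.2, fun g => ?_⟩⟩ <;> simp [sc, hr]
      · exact ⟨fun g => rfl, ⟨0, Q.zero_mem, fun g => rfl⟩, ⟨0, Q.zero_mem, fun g => rfl⟩⟩
      · rintro z z' - - ⟨h1, ⟨q1, hq1, h2⟩, ⟨q2, hq2, h3⟩⟩ ⟨h1', ⟨q1', hq1', h2'⟩, ⟨q2', hq2', h3'⟩⟩
        refine ⟨fun g => by simp [h1, h1'], ⟨q1 + q1', Q.add_mem hq1 hq1', fun g => ?_⟩,
          ⟨q2 + q2', Q.add_mem hq2 hq2', fun g => ?_⟩⟩
        · simp [h2, h2']
        · simp [h3, h3']
      · rintro r z - ⟨h1, ⟨q1, hq1, h2⟩, ⟨q2, hq2, h3⟩⟩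
        refine ⟨fun g => by simp [h1], ⟨sc r.a • q1, Q.smul_mem _ hq1, fun g => ?_⟩,
          ⟨sc r.a • q2, Q.smul_mem _ hq2, fun g => ?_⟩⟩
        · simp [h1, h2, sc]
        · simp [h1, h3, sc]
    have fin : ∀ (γ : k), γ ≠ 0 → ∀ q ∈ Q, (∀ g, (q g).a = if g = n then γ else 0) →
        n ∈ DD (k := k) N := by
      intro γ hγ q hq hqa
      have h1 := linComb_mem (q - Finsupp.single n (sc γ)) (by
        intro g
        by_cases h : g = n
        · subst h; simp [hqa, sc]
        · simp [hqa, h])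
      have h2 : Finsupp.linearCombination (RR k) id q = 0 := by
        rw [hQdef, LinearMap.mem_ker, hgdef] at hq
        exact hq
      rw [map_sub, h2, zero_sub, Finsupp.linearCombination_single] at h1
      have h3 : (sc (-γ⁻¹) : RR k) • -(sc γ • id n) = n := by
        rw [smul_neg, ← mul_smul]
        have : (sc (-γ⁻¹) : RR k) * sc γ = -1 := by
          apply RR.ext' <;> (try intro i) <;> simp [sc, hγ]
        rw [this]; simp
      rw [← h3]
      exact Submodule.smul_mem _ _ h1
    obtain ⟨-, ⟨q1, hq1, h2⟩, ⟨q2, hq2, h3⟩⟩ := claim _ hzD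
    rcases hab with h | h
    · refine fin α h q1 hq1 fun g => ?_
      rw [h2]
      by_cases hgn : g = n
      · subst hgn; simp [lel]
      · simp [hgn]
    · refine fin β h q2 hq2 fun g => ?_
      rw [h3]
      by_cases hgn : g = n
      · subst hgn; simp [lel]
      · simp [hgn]

lemma DD_vanish (I : Submodule (RR k) (RR k)) (φ : RR k → k) (h0 : φ 0 = 0)
    (hadd : ∀ r s, φ (r + s) = φ r + φ s)
    (h : ∀ ρ n : RR k, ρ.a = 0 → n ∈ I → φ (ρ * n) = 0) (y : I) (hy : y ∈ DD (k := k) I) :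
    φ y = 0 := by
  have : ∀ r : RR k, φ (r * y) = 0 := by
    refine Submodule.span_induction (p := fun (y : I) _ => ∀ r : RR k, φ (r * y) = 0)
      ?_ ?_ ?_ ?_ hy
    · rintro _ ⟨ρ, n, hρ, rfl⟩ r
      have : r * ((ρ • n : I) : RR k) = (r * ρ) * n := by
        rw [Submodule.coe_smul, smul_eq_mul, mul_assoc]
      rw [this]
      exact h _ _ (by simp [hρ]) n.2
    · intro r
      simp [h0]
    · intro y z _ _ h1 h2 r
      rw [Submodule.coe_add, mul_add, hadd, h1, h2, add_zero]
    · intro s y _ h1 r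
      rw [Submodule.coe_smul, smul_eq_mul, ← mul_assoc]
      exact h1 _
  simpa using this 1

/-- finitely supported diagonal element -/
def jj (t : ℕ → k) (N : ℕ) : RR k :=
  ⟨0, 0, 0, 0, 0, 0, 0, fun j => if j < N then t j else 0, N, fun j hj => by
    rw [if_neg (by omega)]⟩

lemma jj_mem (I : Submodule (RR k) (RR k)) (t : ℕ → k) (h : ∀ j, t j ≠ 0 → (ei j : RR k) ∈ I)
    (N : ℕ) : jj t N ∈ I := by
  induction N with
  | zero =>
    have : jj t 0 = 0 := by apply RR.ext' <;> (try intro i) <;> simp [jj]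
    rw [this]; exact I.zero_mem
  | succ N ih =>
    have : jj t (N + 1) = jj t N + sc (t N) * ei N := by
      apply RR.ext' <;> (try intro i) <;> simp [jj, sc, ei]
      rcases lt_trichotomy i N with h | h | h
      · rw [if_pos (by omega), if_pos h, if_neg (by omega), add_zero]
      · subst h; simp
      · rw [if_neg (by omega), if_neg (by omega), if_neg (by omega), add_zero]
    rw [this]
    by_cases h0 : t N = 0
    · have : (sc (t N) : RR k) * ei N = 0 := by
        apply RR.ext' <;> (try intro i) <;> simp [sc, ei, h0]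
      rw [this, add_zero]; exact ih
    · exact I.add_mem ih (I.smul_mem (sc (t N)) (h N h0))

lemma ei_mem_of (I : Submodule (RR k) (RR k)) (n : RR k) (hn : n ∈ I) (i : ℕ) (h : n.c i ≠ 0) :
    (ei i : RR k) ∈ I := by
  have : (ei i : RR k) = (sc (n.c i)⁻¹ * ei i) * n := by
    apply RR.ext' <;> (try intro j) <;> simp [sc, ei]
    by_cases hj : j = i
    · subst hj; simp [h]
    · simp [hj]
  rw [this]
  exact I.smul_mem _ hn

lemma e2_mem_of (I : Submodule (RR k) (RR k)) (n : RR k) (hn : n ∈ I) (h : n.b ≠ 0) :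
    (e2 : RR k) ∈ I := by
  have : (e2 : RR k) = (sc (n.b)⁻¹ * e2) * n := by
    apply RR.ext' <;> (try intro j) <;> simp [sc, e2, h]
  rw [this]
  exact I.smul_mem _ hn

theorem idempotent_generator (I : Submodule (RR k) (RR k)) (hfg : I.FG)
    (hC : ∀ n (hn : n ∈ I), n.a = 0 → (⟨n, hn⟩ : I) ∈ DD (k := k) I) :
    ∃ G ∈ I, ∀ n ∈ I, n * G = n := by
  classical
  have hγ : ∀ n ∈ I, ∀ i, n.c i * (if (ei i : RR k) ∈ I then (1 : k) else 0) = n.c i := by
    intro n hn i
    by_cases h : (ei i : RR k) ∈ I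
    · rw [if_pos h, mul_one]
    · rw [if_neg h, mul_zero]
      by_contra h'
      exact h (ei_mem_of I n hn i (Ne.symm h'))
  by_cases ha : ∀ n ∈ I, n.a = 0
  · -- all constant terms vanish
    have hl1 : ∀ n ∈ I, n.l1 = 0 := fun n hn => DD_vanish I RR.l1 rfl (fun _ _ => rfl)
      (fun ρ n h1 h2 => by simp [h1, ha n h2]) ⟨n, hn⟩ (hC n hn (ha n hn))
    have hl2 : ∀ n ∈ I, n.l2 = 0 := fun n hn => DD_vanish I RR.l2 rfl (fun _ _ => rfl)
      (fun ρ n h1 h2 => by simp [h1, ha n h2]) ⟨n, hn⟩ (hC n hn (ha n hn))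
    obtain ⟨N0, hN0⟩ : ∃ N0, ∀ n ∈ I, ∀ i, N0 ≤ i → n.c i = 0 := by
      obtain ⟨S, hS⟩ := hfg
      refine ⟨S.sup fun r => Classical.choose r.ev, ?_⟩
      intro n hn
      rw [← hS] at hn
      refine Submodule.span_induction ?_ ?_ ?_ ?_ hn
      · intro x hx i hi
        have h1 := Classical.choose_spec x.ev i (le_trans (Finset.le_sup
          (f := fun r : RR k => Classical.choose r.ev) hx) hi)
        rw [h1]
        exact ha x (by rw [← hS]; exact Submodule.subset_span hx)
      · intro i _; rfl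
      · intro x y _ _ h1 h2 i hi; simp [h1 i hi, h2 i hi]
      · intro r x _ h1 i hi; simp [h1 i hi]
    have hev : ∀ i, N0 ≤ i → ¬ (ei i : RR k) ∈ I := by
      intro i hi h
      have := hN0 _ h i hi
      simp [ei] at this
    let G0 : RR k := jj (fun i => if (ei i : RR k) ∈ I then (1 : k) else 0) N0
    have hG0 : G0 ∈ I := jj_mem I _ (by intro j hj; by_contra h; simp [h] at hj) N0
    have hG0c : ∀ i, G0.c i = if (ei i : RR k) ∈ I then (1 : k) else 0 := by
      intro i
      change (if i < N0 then (if (ei i : RR k) ∈ I then (1 : k) else 0) else 0) = _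
      by_cases hi : i < N0
      · rw [if_pos hi]
      · rw [if_neg hi, if_neg (hev i (by omega))]
    by_cases hb : ∀ n ∈ I, n.b = 0
    · have hp : ∀ n ∈ I, n.p = 0 := fun n hn => DD_vanish I RR.p rfl (fun _ _ => rfl)
        (fun ρ n h1 h2 => by simp [h1, hb n h2]) ⟨n, hn⟩ (hC n hn (ha n hn))
      have hq : ∀ n ∈ I, n.q = 0 := fun n hn => DD_vanish I RR.q rfl (fun _ _ => rfl)
        (fun ρ n h1 h2 => by simp [h1, hb n h2]) ⟨n, hn⟩ (hC n hn (ha n hn))
      have hw : ∀ n ∈ I, n.w = 0 := fun n hn => DD_vanish I RR.w rfl (fun _ _ => rfl)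
        (fun ρ n h1 h2 => by simp [h1, hb n h2, hp n h2, hq n h2]) ⟨n, hn⟩ (hC n hn (ha n hn))
      refine ⟨G0, hG0, fun n hn => ?_⟩
      apply RR.ext' <;> (try intro i) <;>
        simp [ha n hn, hl1 n hn, hl2 n hn, hp n hn, hq n hn, hw n hn, hb n hn, hG0c, hγ n hn]
    · push Not at hb
      obtain ⟨n0, hn0, hb0⟩ := hb
      have he2 := e2_mem_of I n0 hn0 hb0
      refine ⟨e2 + G0, I.add_mem he2 hG0, fun n hn => ?_⟩
      have := hγ n hn
      have hc : ∀ i, n.c i * ((e2 : RR k).c i + G0.c i) = n.c i := by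
        intro i
        rw [hG0c]
        simpa [e2] using hγ n hn i
      apply RR.ext' <;> (try intro i)
      · simp [ha n hn]
      · simp [ha n hn, hl1 n hn, e2, G0, jj]
      · simp [ha n hn, hl2 n hn, e2, G0, jj]
      · simp [e2, G0, jj]
      · simp [e2, G0, jj]
      · simp [e2, G0, jj]
      · simp [e2, G0, jj]
      · exact hc i
  · push Not at ha
    obtain ⟨g0, hg0, hg0a⟩ := ha
    -- normalise
    obtain ⟨g, hg, hga, hgl1, hgl2, hgb⟩ :
        ∃ g ∈ I, g.a = 1 ∧ g.l1 = 0 ∧ g.l2 = 0 ∧ g.b = 0 := by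
      let u : RR k := ⟨g0.a⁻¹, -(g0.l1 * g0.a⁻¹ * g0.a⁻¹), -(g0.l2 * g0.a⁻¹ * g0.a⁻¹), 0, 0, 0, 0,
        fun _ => g0.a⁻¹, 0, fun _ _ => rfl⟩
      refine ⟨u * g0, I.smul_mem u hg0, ?_, ?_, ?_, ?_⟩
      · simp [u, hg0a]
      · simp only [u, mul_l1]
        field_simp
        ring
      · simp only [u, mul_l2]
        field_simp
        ring
      · simp [u]
    obtain ⟨N0, hN0⟩ := g.ev
    have hev : ∀ i, N0 ≤ i → (ei i : RR k) ∈ I := by
      intro i hi
      exact ei_mem_of I g hg i (by rw [hN0 i hi, hga]; exact one_ne_zero)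
    -- the correction term
    let t : ℕ → k := fun i => (if (ei i : RR k) ∈ I then (1 : k) else 0) - g.c i
    have ht : ∀ i, t i ≠ 0 → (ei i : RR k) ∈ I := by
      intro i hi
      by_contra h
      apply hi
      simp only [t, if_neg h, zero_sub, neg_eq_zero]
      by_contra h'
      exact h (ei_mem_of I g hg i h')
    have hJ : jj t N0 ∈ I := jj_mem I t ht N0
    have hJc : ∀ i, g.c i + (jj t N0 : RR k).c i = if (ei i : RR k) ∈ I then (1 : k) else 0 := by
      intro i
      change g.c i + (if i < N0 then t i else 0) = _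
      by_cases hi : i < N0
      · rw [if_pos hi]; simp only [t]; ring
      · rw [if_neg hi, if_pos (hev i (by omega)), hN0 i (by omega), hga, add_zero]
    by_cases hb : ∀ n ∈ I, n.b = 0
    · -- vanishing of the defects
      have red : ∀ n ∈ I, n - sc n.a * g ∈ I ∧ (n - sc n.a * g).a = 0 := by
        intro n hn
        refine ⟨I.sub_mem hn (I.smul_mem _ hg), ?_⟩
        simp [sc, hga]
      have hP : ∀ n ∈ I, n.p = n.a * g.p := by
        intro n hn
        obtain ⟨h1, h2⟩ := red n hn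
        have := DD_vanish I (fun r => r.p - r.a * g.p) (by simp)
          (fun r s => by simp; ring) (fun ρ n h1 h2 => by simp [h1, hb n h2]) ⟨_, h1⟩ (hC _ h1 h2)
        simp only [sub_p, sub_a, mul_p, mul_a, sc, hga, hgb] at this
        linear_combination this
      have hQ : ∀ n ∈ I, n.q = n.a * g.q := by
        intro n hn
        obtain ⟨h1, h2⟩ := red n hn
        have := DD_vanish I (fun r => r.q - r.a * g.q) (by simp)
          (fun r s => by simp; ring) (fun ρ n h1 h2 => by simp [h1, hb n h2]) ⟨_, h1⟩ (hC _ h1 h2)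
        simp only [sub_q, sub_a, mul_q, mul_a, sc, hga, hgb] at this
        linear_combination this
      have hW : ∀ n ∈ I, n.w = n.a * g.w + n.l1 * g.q + n.l2 * g.p := by
        intro n hn
        obtain ⟨h1, h2⟩ := red n hn
        have := DD_vanish I (fun r => r.w - r.a * g.w - r.l1 * g.q - r.l2 * g.p) (by simp)
          (fun r s => by simp; ring) (fun ρ n h1 h2 => by
            simp only [mul_w, mul_a, mul_l1, mul_l2, h1, hb n h2, hP n h2, hQ n h2]; ring)
          ⟨_, h1⟩ (hC _ h1 h2)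
        simp only [sub_w, sub_a, sub_l1, sub_l2, mul_w, mul_l1, mul_l2, mul_a, sc, hga, hgb, hgl1,
          hgl2] at this
        linear_combination this
      refine ⟨g + jj t N0, I.add_mem hg hJ, fun n hn => ?_⟩
      apply RR.ext' <;> (try intro i)
      · simp [jj, hga]
      · simp [jj, hga, hgl1]
      · simp [jj, hga, hgl2]
      · simp [jj, hP n hn, hgb]
      · simp [jj, hQ n hn, hgb]
      · simp [jj, hW n hn, hgb]
      · simp [jj, hb n hn]
      · rw [mul_c, add_c, hJc]
        exact hγ n hn i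
    · push Not at hb
      obtain ⟨n0, hn0, hb0⟩ := hb
      have he2 := e2_mem_of I n0 hn0 hb0
      let μ : RR k := ⟨0, 0, 0, g.p, g.q, g.w, 0, fun _ => 0, 0, fun _ _ => rfl⟩
      have hμ : μ ∈ I := by
        have : μ = μ * e2 := by
          apply RR.ext' <;> (try intro i) <;> simp [μ, e2]
        rw [this]; exact I.smul_mem μ he2
      refine ⟨g - μ + jj t N0 + e2, I.add_mem (I.add_mem (I.sub_mem hg hμ) hJ) he2, fun n hn => ?_⟩
      apply RR.ext' <;> (try intro i)
      · simp [jj, hga, μ, e2]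
      · simp [jj, hga, hgl1, μ, e2]
      · simp [jj, hga, hgl2, μ, e2]
      · simp [jj, hgb, μ, e2]
      · simp [jj, hgb, μ, e2]
      · simp [jj, hgb, μ, e2]
      · simp [jj, hgb, μ, e2]
      · have h1 : (g - μ + jj t N0 + e2 : RR k).c i = if (ei i : RR k) ∈ I then (1 : k) else 0 := by
          rw [← hJc]
          simp [μ, e2]
        rw [mul_c, h1]
        exact hγ n hn i

theorem fg_ideal (I : Submodule (RR k) (RR k)) (hfg : I.FG) (d : ℕ)
    (hpd : HasProjectiveDimensionLT (ModuleCat.of (RR k) I) (d + 1)) :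
    Module.FinitePresentation (RR k) I := by
  obtain ⟨G, hG, hGn⟩ := idempotent_generator I hfg (by
    intro n hn ha
    by_cases hpq : n.p = 0 ∧ n.q = 0
    · refine key d I hpd 1 0 (Or.inl one_ne_zero) _ ?_
      apply Subtype.ext
      change (lel 1 0 : RR k) * n = 0
      apply RR.ext' <;> (try intro i) <;> simp [lel, ha, hpq]
    · refine key d I hpd n.p (-n.q) ?_ _ ?_
      · by_contra h
        push Not at h
        exact hpq ⟨h.1, neg_eq_zero.1 h.2⟩
      · apply Subtype.ext
        change (lel n.p (-n.q) : RR k) * n = 0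
        apply RR.ext' <;> (try intro i) <;> simp [lel, ha]
        ring)
  have : Module.Finite (RR k) I := Module.Finite.iff_fg.2 hfg
  have hproj : Module.Projective (RR k) I := by
    refine Module.Projective.of_split I.subtype
      ((LinearMap.toSpanSingleton (RR k) (RR k) G).codRestrict I
        (fun r => I.smul_mem r hG)) ?_
    exact LinearMap.ext fun n => Subtype.ext (hGn n n.2)
  exact Module.finitePresentation_of_projective (RR k) I

/-! ### The cyclic submodule of `R²` -/

/-- the element `(v1, v2)` of `R²` -/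
def vv : Fin 2 → RR k := ![⟨0, 0, 0, 1, 0, 0, 0, fun _ => 0, 0, fun _ _ => rfl⟩,
  ⟨0, 0, 0, 0, 1, 0, 0, fun _ => 0, 0, fun _ _ => rfl⟩]

/-- the cyclic submodule -/
def KK : Submodule (RR k) (Fin 2 → RR k) := Submodule.span (RR k) {vv}

/-- `R → K` -/
def toK : RR k →ₗ[RR k] (KK : Submodule (RR k) (Fin 2 → RR k)) :=
  (LinearMap.toSpanSingleton (RR k) (Fin 2 → RR k) vv).codRestrict KK
    (fun r => Submodule.smul_mem _ r (Submodule.subset_span rfl))

lemma toK_surj : Function.Surjective (toK (k := k)) := by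
  rintro ⟨x, hx⟩
  obtain ⟨r, hr⟩ := Submodule.mem_span_singleton.1 hx
  exact ⟨r, Subtype.ext hr⟩

lemma toK_ker (r : RR k) : r ∈ LinearMap.ker (toK (k := k)) ↔ r.a = 0 ∧ r.l1 = 0 ∧ r.l2 = 0 := by
  rw [LinearMap.mem_ker]
  have h0 : toK r = 0 ↔ r • (vv : Fin 2 → RR k) = 0 := by
    rw [← Subtype.coe_inj]; rfl
  rw [h0]
  constructor
  · intro h
    have h1 := congrFun h 0
    have h2 := congrFun h 1
    have e1 := congrArg RR.p h1
    have e2 := congrArg RR.w h1
    have e3 := congrArg RR.w h2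
    simp [vv] at e1 e2 e3
    exact ⟨e1, e3, e2⟩
  · rintro ⟨h1, h2, h3⟩
    ext1 i
    fin_cases i <;> apply RR.ext' <;> (try intro i) <;> simp [vv, h1, h2, h3]

/-- the kernel `T = {l = 0}` -/
abbrev TT (k : Type) [Field k] : Submodule (RR k) (RR k) := LinearMap.ker (toK (k := k))

lemma TT_c (r : RR k) (hr : r ∈ TT k) : (Function.support r.c).Finite := by
  obtain ⟨N, hN⟩ := r.ev
  have h0 := (toK_ker r).1 hr
  refine (Set.finite_lt_nat N).subset ?_
  intro i hi
  by_contra h
  exact hi (by rw [hN i (by simpa using h), h0.1])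

lemma e2_mem : (e2 : RR k) ∈ TT k := (toK_ker _).2 (by simp [e2])
lemma ei_mem (i : ℕ) : (ei i : RR k) ∈ TT k := (toK_ker _).2 (by simp [ei])

lemma mul_ei_supp (r : TT k) : (Function.support fun i : ℕ => r.1 * ei i).Finite := by
  refine (TT_c r.1 r.2).subset ?_
  intro i hi h
  apply hi
  apply RR.ext' <;> (try intro j) <;> simp [ei]
  intro hj; subst hj; exact h

/-- the finitely supported family `r e_i` -/
noncomputable def fam (r : TT k) : ℕ →₀ RR k := Finsupp.ofSupportFinite _ (mul_ei_supp r)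

lemma fam_apply (r : TT k) (i : ℕ) : fam r i = r.1 * ei i := rfl

/-- section `T → R × (ℕ →₀ R)` -/
noncomputable def secT : TT k →ₗ[RR k] RR k × (ℕ →₀ RR k) where
  toFun r := (r.1 * e2, fam r)
  map_add' r s := by
    refine Prod.ext ?_ ?_
    · exact add_mul _ _ _
    · refine Finsupp.ext fun i => ?_
      exact add_mul _ _ _
  map_smul' r s := by
    refine Prod.ext ?_ ?_
    · exact mul_assoc _ _ _
    · refine Finsupp.ext fun i => ?_
      exact mul_assoc _ _ _

/-- retraction `R × (ℕ →₀ R) → T` -/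
noncomputable def retT : RR k × (ℕ →₀ RR k) →ₗ[RR k] TT k :=
  (LinearMap.toSpanSingleton (RR k) (TT k) ⟨e2, e2_mem⟩).coprod
    (Finsupp.linearCombination (RR k) fun i => (⟨ei i, ei_mem i⟩ : TT k))

lemma coord_lc (φ : RR k → k) (h0 : φ 0 = 0) (hadd : ∀ r s, φ (r + s) = φ r + φ s)
    (u : ℕ →₀ RR k) :
    φ ((Finsupp.linearCombination (RR k) (fun i => (⟨ei i, ei_mem i⟩ : TT k)) u : TT k) : RR k)
      = u.sum fun i s => φ (s * ei i) := by
  let φ' : RR k →+ k := ⟨⟨φ, h0⟩, hadd⟩
  change φ' _ = u.sum fun i s => φ' (s * ei i)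
  rw [Finsupp.linearCombination_apply, Finsupp.sum, Finsupp.sum, AddSubmonoidClass.coe_finsetSum,
    map_sum]
  rfl

lemma ret_sec : (retT (k := k)) ∘ₗ secT = LinearMap.id := by
  refine LinearMap.ext fun r => Subtype.ext ?_
  obtain ⟨h1, h2, h3⟩ := (toK_ker r.1).1 r.2
  have e : ((retT ∘ₗ secT) r : TT k).1 = (r.1 * e2) * e2 +
      ((Finsupp.linearCombination (RR k) (fun i => (⟨ei i, ei_mem i⟩ : TT k)) (fam r) : TT k) : RR k) :=
    rfl
  rw [e]
  have z : ∀ φ : RR k → k, (∀ (s : RR k) i, φ (s * ei i) = 0) → (fam r).sum (fun i s => φ (s * ei i)) = 0 := by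
    intro φ h
    simp [h, Finsupp.sum]
  change _ = r.1
  apply RR.ext'
  · rw [add_a, coord_lc RR.a rfl (fun _ _ => rfl), z _ (by intro s i; simp [ei])]
    simp [e2, h1]
  · rw [add_l1, coord_lc RR.l1 rfl (fun _ _ => rfl), z _ (by intro s i; simp [ei])]
    simp [e2, h2]
  · rw [add_l2, coord_lc RR.l2 rfl (fun _ _ => rfl), z _ (by intro s i; simp [ei])]
    simp [e2, h3]
  · rw [add_p, coord_lc RR.p rfl (fun _ _ => rfl), z _ (by intro s i; simp [ei])]
    simp [e2]
  · rw [add_q, coord_lc RR.q rfl (fun _ _ => rfl), z _ (by intro s i; simp [ei])]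
    simp [e2]
  · rw [add_w, coord_lc RR.w rfl (fun _ _ => rfl), z _ (by intro s i; simp [ei])]
    simp [e2]
  · rw [add_b, coord_lc RR.b rfl (fun _ _ => rfl), z _ (by intro s i; simp [ei])]
    simp [e2]
  · intro j
    rw [add_c, coord_lc (fun s => s.c j) rfl (fun _ _ => rfl)]
    rw [Finsupp.sum_eq_single j]
    · simp [fam_apply, ei, e2]
    · intro i _ hij
      simp [ei, Ne.symm hij]
    · intro _
      simp

instance TT_projective : Module.Projective (RR k) (TT k) :=
  Module.Projective.of_split secT retT ret_sec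

lemma TT_not_fg : ¬ (TT k).FG := by
  rintro ⟨S, hS⟩
  have : ∀ n ∈ TT k, ∀ i, (S.sup fun r => Classical.choose r.ev) ≤ i → n.c i = 0 := by
    intro n hn
    rw [← hS] at hn
    refine Submodule.span_induction ?_ ?_ ?_ ?_ hn
    · intro x hx i hi
      have h1 := Classical.choose_spec x.ev i (le_trans (Finset.le_sup
        (f := fun r : RR k => Classical.choose r.ev) hx) hi)
      rw [h1]
      have hxT : x ∈ TT k := by rw [← hS]; exact Submodule.subset_span hx
      exact ((toK_ker x).1 hxT).1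
    · intro i _; rfl
    · intro x y _ _ h1 h2 i hi; simp [h1 i hi, h2 i hi]
    · intro r x _ h1 i hi; simp [h1 i hi]
  have h := this (ei (S.sup fun r => Classical.choose r.ev)) (ei_mem _)
    (S.sup fun r => Classical.choose r.ev) le_rfl
  simp [ei] at h

lemma KK_fp (h : Module.FinitePresentation (RR k) (KK : Submodule (RR k) (Fin 2 → RR k))) :
    (TT k).FG :=
  Module.FinitePresentation.fg_ker (toK (k := k)) toK_surj

lemma pd_le_one {R : Type} [Ring R] {T P K : Type} [AddCommGroup T] [Module R T]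
    [AddCommGroup P] [Module R P] [AddCommGroup K] [Module R K] (f : T →ₗ[R] P) (g : P →ₗ[R] K)
    (hf : Function.Injective f) (hg : Function.Surjective g) (hfg : Function.Exact f g)
    [Module.Projective R T] [Module.Projective R P] :
    HasProjectiveDimensionLT (ModuleCat.of R K) 2 := by
  have hS := Pool.Agent.X277.sc_shortExact f g hf hg hfg
  have hP1 : HasProjectiveDimensionLT (ModuleCat.of R T) 1 :=
    projective_iff_hasProjectiveDimensionLT_one.1 (IsProjective.iff_projective T |>.1 inferInstance)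
  have hP2 : HasProjectiveDimensionLT (ModuleCat.of R P) 2 := by
    have : HasProjectiveDimensionLT (ModuleCat.of R P) 1 :=
      projective_iff_hasProjectiveDimensionLT_one.1
        (IsProjective.iff_projective P |>.1 inferInstance)
    exact hasProjectiveDimensionLT_of_ge _ 1 2 (by norm_num)
  exact hS.hasProjectiveDimensionLT_X₃ 1 hP1 hP2

lemma pd_le_one' {R : Type} [Ring R] {P K : Type}
    [AddCommGroup P] [Module R P] [AddCommGroup K] [Module R K] (g : P →ₗ[R] K)
    (hg : Function.Surjective g) (hT : Module.Projective R (LinearMap.ker g))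
    [Module.Projective R P] :
    HasProjectiveDimensionLT (ModuleCat.of R K) 2 :=
  pd_le_one (LinearMap.ker g).subtype g (Submodule.injective_subtype _) hg
    (LinearMap.exact_subtype_ker_map g)

lemma KK_pd : HasProjectiveDimensionLT
    (ModuleCat.of (RR k) (KK : Submodule (RR k) (Fin 2 → RR k))) 2 :=
  pd_le_one' toK toK_surj TT_projective

lemma enat_sub (m : ℕ) : (((m + 1 : ℕ) : ℕ∞) - 1 : ℕ∞) = (m : ℕ∞) := by
  have := (ENat.natCast_sub (m + 1) 1).symm
  simpa using this

/-- **Main theorem.** There is a ring that is weakly Lee `n`-coherent but not Lee `n`-coherent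
for every integer `n ≥ 2`. -/
theorem result : ∃ (R : Type) (_ : Ring R), ∀ n : ℕ, 2 ≤ n →
    WeaklyLeeCoherent R n ∧ ¬ LeeCoherent R n := by
  refine ⟨RR ℚ, inferInstance, fun n hn => ⟨?_, ?_⟩⟩
  · intro I hI hpd
    obtain ⟨m, rfl⟩ : ∃ m, n = m + 1 := ⟨n - 1, by omega⟩
    rw [enat_sub] at hpd
    exact fg_ideal I hI m ((projectiveDimension_le_iff _ m).1 hpd)
  · intro h
    obtain ⟨m, rfl⟩ : ∃ m, n = m + 1 := ⟨n - 1, by omega⟩
    refine TT_not_fg (k := ℚ) (KK_fp (h 2 (by norm_num) KK ⟨{vv}, by simp [KK]⟩ ?_))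
    rw [enat_sub]
    refine ((projectiveDimension_le_iff _ 1).2 KK_pd).trans ?_
    exact_mod_cast (by omega : 1 ≤ m)

end Pool.Agent.Results.MP_0b9bd1_al.WeaklyLeeNotLee
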